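import Pool.Agent.Lib.H8F.L1U
import Pool.Agent.Lib.LD59.S8

/-!
# H8L, file L1: (L1) in closed form, in the words of `LD`
-/

set_option autoImplicit false

set_option linter.unusedSectionVars false

namespace H8L

open Finset H98P H98Z H98M H63F H30F

variable {V : Type*} [Fintype V] [DecidableEq V]

/-- (L1): if the 2-connected graph `E` has a 2-separation and a vertex of degree different from two, then the sets
separated by two vertices form an acyclic poset. -/
theorem l1 {E : Finset (Sym2 V)} (hT : LD.TCY E univ) (hs : ∃ x y P Q, LD.Sep E univ x y P Q)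
    (hd : ¬ ∀ v, H85TF.dg E v = 2) : AC (Ch fun W : Finset V => LD.X2 E univ W) := by
  obtain ⟨x, y, P, Q, h, hunc⟩ := LD59.exists_unc hT hs (fun h => hd fun v => h v (mem_univ v))
  exact H8F.l1u_univ hT h hunc

end H8L
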